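import Mathlib
import Pool.Agent.Y552.CT.Defs

/-!
# Project CT, job FIX: nilpotent groups acting without coinvariants have no invariants
-/

set_option autoImplicit false

namespace Pool.Agent.Y592.CT

open Pool.Agent.Y552.CT

universe u v

/-- the statement for one group -/
def PF (N : Type u) [Group N] : Prop :=
  ∀ (V : Type v) [AddCommGroup V] [Module ℂ V] [FiniteDimensional ℂ V] (ρ : N →* Module.End ℂ V),
    Submodule.span ℂ {w : V | ∃ (n : N) (v : V), w = ρ n v - v} = ⊤ →
    ∀ v : V, (∀ n : N, ρ n v = v) → v = 0

/-- the representation on an invariant subspace -/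
noncomputable def sub {N : Type u} [Group N] {V : Type v} [AddCommGroup V] [Module ℂ V]
    (ρ : N →* Module.End ℂ V) (W : Submodule ℂ V) (hW : ∀ n, ∀ w ∈ W, ρ n w ∈ W) :
    N →* Module.End ℂ W where
  toFun n := (ρ n).restrict (hW n)
  map_one' := by
    ext w
    simp
  map_mul' a b := by
    ext w
    simp

/-- the representation on the quotient by an invariant subspace -/
noncomputable def quo {N : Type u} [Group N] {V : Type v} [AddCommGroup V] [Module ℂ V]
    (ρ : N →* Module.End ℂ V) (W : Submodule ℂ V) (hW : ∀ n, ∀ w ∈ W, ρ n w ∈ W) :
    N →* Module.End ℂ (V ⧸ W) where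
  toFun n := W.mapQ W (ρ n) (hW n)
  map_one' := by
    ext w
    simp
  map_mul' a b := by
    ext w
    simp

theorem step {N : Type u} [Group N] (hq : PF.{u, v} (N ⧸ Subgroup.center N)) : PF.{u, v} N := by
  have key : ∀ (d : ℕ) (V : Type v) [AddCommGroup V] [Module ℂ V] [FiniteDimensional ℂ V],
      Module.finrank ℂ V = d → ∀ ρ : N →* Module.End ℂ V,
      Submodule.span ℂ {w : V | ∃ (n : N) (v : V), w = ρ n v - v} = ⊤ →
      ∀ v : V, (∀ n : N, ρ n v = v) → v = 0 := by
    intro d
    induction d using Nat.strong_induction_on with
    | _ d ih =>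
      intro V _ _ _ hd ρ hspan v hv
      by_cases hz : ∃ z ∈ Subgroup.center N, ρ z ≠ 1
      · obtain ⟨z, hz, hne⟩ := hz
        set T : Module.End ℂ V := ρ z - 1 with hT
        have hTv : ∀ x, T x = ρ z x - x := fun x => by simp [hT]
        have hcomm : ∀ n x, ρ n (T x) = T (ρ n x) := by
          intro n x
          have h1 : ρ n * ρ z = ρ z * ρ n := by
            rw [← map_mul, ← map_mul, Subgroup.mem_center_iff.mp hz n]
          have h2 : ρ n (ρ z x) = ρ z (ρ n x) := LinearMap.congr_fun h1 x
          rw [hTv, hTv, map_sub, h2]
        have hT0 : T ≠ 0 := sub_ne_zero.mpr hne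
        set W : Submodule ℂ V := LinearMap.range T with hW
        have hstab : ∀ n, ∀ w ∈ W, ρ n w ∈ W := by
          rintro n w ⟨x, rfl⟩
          exact ⟨ρ n x, (hcomm n x).symm⟩
        by_cases htop : W = ⊤
        · have hsurj : Function.Surjective T := LinearMap.range_eq_top.mp htop
          have hinj : Function.Injective T := LinearMap.injective_iff_surjective.mpr hsurj
          apply hinj
          rw [hTv, hv, sub_self, map_zero]
        · have hWlt : Module.finrank ℂ W < d := by
            rw [← hd]
            exact Submodule.finrank_lt htop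
          have hWbot : W ≠ ⊥ := by
            intro h
            exact hT0 (LinearMap.range_eq_bot.mp h)
          have hWpos : 0 < Module.finrank ℂ W := by
            rw [Nat.pos_iff_ne_zero]
            intro h
            exact hWbot (Submodule.finrank_eq_zero.mp h)
          have hQlt : Module.finrank ℂ (V ⧸ W) < d := by
            have h1 := Submodule.finrank_quotient_add_finrank W
            omega
          have hvW : v ∈ W := by
            have h1 := ih _ hQlt (V ⧸ W) rfl (quo ρ W hstab) (by
              rw [eq_top_iff]
              have h2 : (⊤ : Submodule ℂ (V ⧸ W)) =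
                  Submodule.map W.mkQ (Submodule.span ℂ {w : V | ∃ (n : N) (v : V), w = ρ n v - v}) := by
                rw [hspan, Submodule.map_top, Submodule.range_mkQ]
              rw [h2, Submodule.map_span]
              apply Submodule.span_mono
              rintro _ ⟨_, ⟨n, x, rfl⟩, rfl⟩
              exact ⟨n, W.mkQ x, by simp [quo]⟩) (W.mkQ v) (by
              intro n
              show W.mapQ W (ρ n) (hstab n) (W.mkQ v) = W.mkQ v
              rw [Submodule.mkQ_apply, Submodule.mapQ_apply, hv])
            rwa [Submodule.mkQ_apply, Submodule.Quotient.mk_eq_zero] at h1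
          have h1 := ih _ hWlt W rfl (sub ρ W hstab) (by
            rw [eq_top_iff]
            have h2 : (⊤ : Submodule ℂ W) = Submodule.map T.rangeRestrict
                (Submodule.span ℂ {w : V | ∃ (n : N) (v : V), w = ρ n v - v}) := by
              rw [hspan, Submodule.map_top, LinearMap.range_rangeRestrict]
            rw [h2, Submodule.map_span]
            apply Submodule.span_mono
            rintro _ ⟨_, ⟨n, x, rfl⟩, rfl⟩
            refine ⟨n, T.rangeRestrict x, ?_⟩
            apply Subtype.ext
            show T (ρ n x - x) = ρ n (T x) - T x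
            rw [map_sub, hcomm]) ⟨v, hvW⟩ (by
            intro n
            apply Subtype.ext
            exact hv n)
          exact congrArg Subtype.val h1
      · push Not at hz
        have hker : Subgroup.center N ≤ ρ.ker := fun z h => hz z h
        exact hq V (QuotientGroup.lift (Subgroup.center N) ρ hker) (by
          rw [eq_top_iff, ← hspan]
          apply Submodule.span_mono
          rintro _ ⟨n, x, rfl⟩
          exact ⟨(n : N ⧸ Subgroup.center N), x, rfl⟩) v (by
          intro n
          obtain ⟨n, rfl⟩ := QuotientGroup.mk_surjective n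
          exact hv n)
  intro V _ _ _ ρ h v hv
  exact key _ V rfl ρ h v hv

theorem fix : S_FIX.{u, v} := by
  intro N _ _
  have h : PF.{u, v} N := by
    apply @Group.nilpotent_center_quotient_ind (fun G _ _ => PF.{u, v} G) N _ _
    · intro G _ _ V _ _ _ ρ hspan v _
      have h0 : {w : V | ∃ (n : G) (v : V), w = ρ n v - v} ⊆ {0} := by
        rintro _ ⟨n, x, rfl⟩
        have : n = 1 := Subsingleton.elim _ _
        rw [this, map_one]
        simp
      have h1 : Submodule.span ℂ {w : V | ∃ (n : G) (v : V), w = ρ n v - v} ≤ ⊥ :=
        (Submodule.span_mono h0).trans (by simp)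
      rw [hspan] at h1
      have h2 : v ∈ (⊥ : Submodule ℂ V) := h1 Submodule.mem_top
      exact (Submodule.mem_bot ℂ).mp h2
    · intro G _ _ ih
      exact step ih
  exact h

end Pool.Agent.Y592.CT
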